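import Mathlib
import Pool.Agent.Lib.MP_d5c16a_gt.Order

/-!
Meyer's projection-to-section ratio of origin-symmetric convex bodies: the constant `M n` is of
exact order `√n`.

All notions are those of the problem. `Euc n` is Euclidean space of dimension `n`, bodies are the
origin-symmetric compact convex sets with nonempty interior, `proj u v` is the linear projection
onto the hyperplane orthogonal to `u` along `v`, and `hypVol u A` is the `(n - 1)`-dimensional
Lebesgue measure of the part of `A` lying in the hyperplane orthogonal to `u`.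
-/

open MeasureTheory Set ENNReal

namespace Pool.Agent.Results.MP_d5c16a_gt.MeyerRatioOrder

/-- Euclidean space of dimension `n`. -/
abbrev Euc (n : ℕ) := EuclideanSpace ℝ (Fin n)

/-- Origin-symmetric convex bodies. -/
structure IsSymmBody {n : ℕ} (K : Set (Euc n)) : Prop where
  isCompact : IsCompact K
  convex : Convex ℝ K
  nonempty_interior : (interior K).Nonempty
  symm : ∀ x ∈ K, -x ∈ K

/-- The linear projection onto the hyperplane orthogonal to `u` along the direction `v`. -/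
noncomputable def proj {n : ℕ} (u v x : Euc n) : Euc n := x - (inner ℝ x u / inner ℝ v u) • v

/-- The Lebesgue measure of a Euclidean space `F`: the Haar measure which gives mass one to the cube
spanned by an orthonormal basis. -/
noncomputable def lebesgue (F : Type*) [NormedAddCommGroup F] [InnerProductSpace ℝ F]
    [FiniteDimensional ℝ F] [MeasurableSpace F] [BorelSpace F] : Measure F :=
  (stdOrthonormalBasis ℝ F).toBasis.addHaar

/-- The hyperplane through the origin orthogonal to `u`. -/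
noncomputable def hyp {n : ℕ} (u : Euc n) : Submodule ℝ (Euc n) := (ℝ ∙ u)ᗮ

/-- The `(n - 1)`-dimensional Lebesgue measure of the part of `A` in the hyperplane orthogonal
to `u`. -/
noncomputable def hypVol {n : ℕ} (u : Euc n) (A : Set (Euc n)) : ℝ≥0∞ :=
  lebesgue (hyp u) {z : hyp u | (z : Euc n) ∈ A}

/-- The ratio of the volume of the projection of `K` onto the hyperplane orthogonal to `u` along
`v`, to the volume of the section of `K` by this hyperplane. -/
noncomputable def ratio {n : ℕ} (K : Set (Euc n)) (u v : Euc n) : ℝ≥0∞ :=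
  hypVol u (proj u v '' K) / hypVol u K

/-- The constant `M n` of the problem. -/
noncomputable def M (n : ℕ) : ℝ≥0∞ :=
  ⨆ K : {K : Set (Euc n) // IsSymmBody K},
    ⨅ p : {p : Euc n × Euc n // ‖p.1‖ = 1 ∧ ‖p.2‖ = 1 ∧ inner ℝ p.1 p.2 ≠ 0},
      ratio K.1 p.1.1 p.1.2

theorem IsSymmBody.toLib {n : ℕ} {K : Set (Euc n)} (h : IsSymmBody K) :
    MeyerRatio.IsSymmBody K :=
  ⟨h.isCompact, h.convex, h.nonempty_interior, h.symm⟩

theorem hypVol_eq_lib {n : ℕ} (u : Euc n) (A : Set (Euc n)) :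
    hypVol u A = MeyerRatio.hypVol u A := rfl

theorem proj_eq_lib {n : ℕ} (u v : Euc n) : proj u v = MeyerRatio.proj u v := rfl

/-- Sections of bodies have positive and finite volume, so the ratios are genuine quotients. -/
theorem hypVol_pos_and_finite {n : ℕ} {K : Set (Euc n)} (h : IsSymmBody K) (u : Euc n) :
    hypVol u K ≠ 0 ∧ hypVol u K ≠ ∞ := by
  have h0 := MeyerRatio.zero_mem_interior h.toLib
  rw [hypVol_eq_lib, MeyerRatio.hypVol_eq]
  constructor
  · have h1 : IsOpen ((fun z : ((ℝ ∙ u)ᗮ : Submodule ℝ (Euc n)) => (z : Euc n)) ⁻¹' interior K) :=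
      isOpen_interior.preimage continuous_subtype_val
    have h2 := h1.measure_pos (volume : Measure ((ℝ ∙ u)ᗮ : Submodule ℝ (Euc n))) ⟨0, h0⟩
    exact (lt_of_lt_of_le h2 (measure_mono (Set.preimage_mono interior_subset))).ne'
  · have h1 : IsCompact ((fun z : ((ℝ ∙ u)ᗮ : Submodule ℝ (Euc n)) => (z : Euc n)) ⁻¹' K) := by
      have hcl : IsClosed (((ℝ ∙ u)ᗮ : Submodule ℝ (Euc n)) : Set (Euc n)) :=
        Submodule.closed_of_finiteDimensional _
      exact hcl.isClosedEmbedding_subtypeVal.isCompact_preimage h.isCompact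
    exact h1.measure_lt_top.ne

theorem one_le_ratio {n : ℕ} {K : Set (Euc n)} (h : IsSymmBody K) (u v : Euc n) :
    1 ≤ ratio K u v := by
  obtain ⟨h0, ht⟩ := hypVol_pos_and_finite h u
  unfold ratio
  rw [ENNReal.le_div_iff_mul_le (Or.inl h0) (Or.inl ht), one_mul]
  refine measure_mono fun z hz => ?_
  refine ⟨(z : Euc n), hz, ?_⟩
  have hzu : inner ℝ (z : Euc n) u = 0 := MeyerRatio.mem_orthogonal_iff.mp z.2
  unfold proj
  rw [hzu, zero_div, zero_smul, sub_zero]

theorem isSymmBody_closedBall (n : ℕ) : IsSymmBody (Metric.closedBall (0 : Euc n) 1) := by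
  refine ⟨isCompact_closedBall _ _, convex_closedBall _ _, ?_, ?_⟩
  · exact ⟨0, mem_interior.mpr ⟨Metric.ball 0 1, Metric.ball_subset_closedBall, Metric.isOpen_ball,
      Metric.mem_ball_self one_pos⟩⟩
  · intro x hx
    rw [mem_closedBall_zero_iff] at hx ⊢
    rwa [norm_neg]

theorem one_le_M (n : ℕ) : 1 ≤ M n := by
  unfold M
  refine le_iSup_of_le ⟨_, isSymmBody_closedBall n⟩ ?_
  exact le_iInf fun p => one_le_ratio (isSymmBody_closedBall n) _ _

theorem M_le (n : ℕ) (hn : 1 ≤ n) : M n ≤ ENNReal.ofReal (17 * √n) := by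
  obtain ⟨k, rfl⟩ : ∃ k, n = k + 1 := ⟨n - 1, by omega⟩
  unfold M
  refine iSup_le fun K => ?_
  obtain ⟨u, v, hu, hv, huv, h⟩ := MeyerRatio.exists_small_ratio K.2.toLib
  refine iInf_le_of_le ⟨(u, v), hu, hv, huv⟩ ?_
  push_cast
  exact h

theorem exists_le_M : ∃ c : ℝ, 0 < c ∧ ∀ n : ℕ, 1 ≤ n → ENNReal.ofReal (c * √n) ≤ M n := by
  obtain ⟨A, hA, hgood⟩ := MeyerRatio.exists_goodBody
  have hρ1 : Real.exp (-1) < 1 := by
    rw [Real.exp_lt_one_iff]; norm_num
  have hρ0 : 0 ≤ Real.exp (-1) := (Real.exp_pos _).le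
  set c₁ : ℝ := (1 - Real.exp (-1)) / (2 * A * 2 ^ 37) with hc₁
  have hc₁0 : 0 < c₁ := div_pos (by linarith) (by positivity)
  refine ⟨min c₁ (1 / 6), lt_min hc₁0 (by norm_num), fun n hn => ?_⟩
  rcases le_or_gt 32 n with hn32 | hn32
  · obtain ⟨K, hK⟩ := hgood n hn32
    obtain ⟨k, rfl⟩ : ∃ k, n = k + 1 := ⟨n - 1, by omega⟩
    have hbody : IsSymmBody K := ⟨hK.isCompact, hK.convex, ⟨0, hK.zero_mem⟩, hK.symm⟩
    have hsq : 0 < √((k + 1 : ℕ) : ℝ) := Real.sqrt_pos.mpr (by positivity)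
    unfold M
    refine le_iSup_of_le ⟨K, hbody⟩ (le_iInf fun p => ?_)
    obtain ⟨⟨u, v⟩, hu, hv, huv⟩ := p
    obtain ⟨h0, ht⟩ := hypVol_pos_and_finite hbody u
    show _ ≤ ratio K u v
    unfold ratio
    rw [ENNReal.le_div_iff_mul_le (Or.inl h0) (Or.inl ht)]
    refine le_trans ?_ (MeyerRatio.lower_ratio hK (by positivity) hρ0 hρ1.le hA hu hv huv)
    rw [hypVol_eq_lib]
    gcongr
    calc min c₁ (1 / 6) * √((k + 1 : ℕ) : ℝ) ≤ c₁ * √((k + 1 : ℕ) : ℝ) := by
          gcongr
          exact min_le_left _ _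
      _ = (1 - Real.exp (-1)) / (2 * A * (2 ^ 37 / √((k + 1 : ℕ) : ℝ))) := by
          rw [hc₁]
          field_simp
  · refine le_trans ?_ (one_le_M n)
    rw [← ENNReal.ofReal_one]
    apply ENNReal.ofReal_le_ofReal
    have h1 : √(n : ℝ) ≤ 6 := by
      rw [Real.sqrt_le_left (by norm_num)]
      have : (n : ℝ) ≤ 31 := by exact_mod_cast (by omega : n ≤ 31)
      linarith
    calc min c₁ (1 / 6) * √(n : ℝ) ≤ (1 / 6) * 6 := by
          gcongr
          exact min_le_right _ _
      _ = 1 := by norm_num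

/-- `M n` is of exact order `√n`; in particular it tends to infinity. -/
theorem result :
    (∃ c : ℝ, 0 < c ∧ ∀ n : ℕ, 1 ≤ n →
      ENNReal.ofReal (c * √n) ≤ M n ∧ M n ≤ ENNReal.ofReal (17 * √n)) ∧
    Filter.Tendsto M Filter.atTop (nhds ∞) := by
  obtain ⟨c, hc, h⟩ := exists_le_M
  refine ⟨⟨c, hc, fun n hn => ⟨h n hn, M_le n hn⟩⟩, ?_⟩
  have h1 : Filter.Tendsto (fun n : ℕ => c * √(n : ℝ)) Filter.atTop Filter.atTop :=
    (Real.tendsto_sqrt_atTop.comp tendsto_natCast_atTop_atTop).const_mul_atTop hc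
  have h2 : Filter.Tendsto (fun n : ℕ => ENNReal.ofReal (c * √(n : ℝ))) Filter.atTop (nhds ∞) :=
    ENNReal.tendsto_ofReal_atTop.comp h1
  refine tendsto_nhds_top_mono h2 ?_
  filter_upwards [Filter.eventually_ge_atTop 1] with n hn
  exact h n hn

end Pool.Agent.Results.MP_d5c16a_gt.MeyerRatioOrder
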